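import Pool.Agent.Helper52.NF.St3

/-!
# Project NF (MP_dd34a0_co), module EU: even edge sets are sums of face boundaries
-/

set_option autoImplicit false

namespace Pool.Agent.Helper97.NF

open Pool.Agent.Helper52.NF Finset

open Classical in
/-- the edge of a dart as an element of the edge set -/
private def ed {V : Type} {G : SimpleGraph V} (d : G.Dart) : G.edgeSet := ⟨d.edge, d.edge_mem⟩

section
open Classical

variable {V : Type} [Fintype V] {G : SimpleGraph V}

private theorem sum_edge (F : G.Dart → ZMod 2) (d : G.Dart) :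
    ∑ d' ∈ Finset.univ.filter (fun d' : G.Dart => ed d' = ed d), F d' = F d + F d.symm := by
  have h1 : Finset.univ.filter (fun d' : G.Dart => ed d' = ed d) = {d, d.symm} := by
    ext d'
    simp only [Finset.mem_filter, Finset.mem_univ, true_and, Finset.mem_insert,
      Finset.mem_singleton]
    rw [← SimpleGraph.dart_edge_eq_iff]
    exact ⟨fun h => congrArg Subtype.val h, fun h => Subtype.ext h⟩
  rw [h1, Finset.sum_pair (SimpleGraph.Dart.symm_ne d).symm]

private theorem sum_fib {K : Type} [Fintype K] [DecidableEq K] (p : G.Dart → K) (g : K → ZMod 2)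
    (F : G.Dart → ZMod 2) :
    ∑ k, g k * ∑ d ∈ Finset.univ.filter (fun d : G.Dart => p d = k), F d =
      ∑ d, g (p d) * F d := by
  rw [← Finset.sum_fiberwise (s := (Finset.univ : Finset G.Dart)) p (fun d => g (p d) * F d)]
  refine Finset.sum_congr rfl fun k _ => ?_
  rw [Finset.mul_sum]
  refine Finset.sum_congr rfl fun d hd => ?_
  rw [(Finset.mem_filter.1 hd).2]

end

private theorem fc_step {V : Type} {G : SimpleGraph V} (φ : Equiv.Perm G.Dart) (d : G.Dart) :
    fc φ (φ d) = fc φ d := by
  refine Quotient.sound ?_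
  show φ.SameCycle (φ d) d
  exact (Equiv.Perm.sameCycle_apply_left).2 (Equiv.Perm.SameCycle.refl φ d)

private theorem fc_symm {V : Type} {G : SimpleGraph V} {rot φ : Equiv.Perm G.Dart}
    (h : ∀ d, φ d = rot d.symm) (d : G.Dart) : fc φ d.symm = fc φ (rot d) := by
  rw [← fc_step φ d.symm, h, SimpleGraph.Dart.symm_symm]

private theorem const_cyc {V : Type} {G : SimpleGraph V} {rot : Equiv.Perm G.Dart}
    (F : G.Dart → ZMod 2) (h : ∀ d, F (rot d) = F d) (d d' : G.Dart) (hs : rot.SameCycle d d') :
    F d = F d' := by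
  obtain ⟨i, hi⟩ := hs
  have hinv : ∀ d, F (rot⁻¹ d) = F d := fun d => by
    have := h (rot.symm d)
    rw [Equiv.apply_symm_apply] at this
    exact this.symm
  have key : ∀ (n : ℕ) (d : G.Dart), F ((rot ^ n) d) = F d := by
    intro n
    induction n with
    | zero => intro d; rfl
    | succ k ih =>
      intro d
      rw [pow_succ', Equiv.Perm.mul_apply, h, ih]
  have key' : ∀ (n : ℕ) (d : G.Dart), F ((rot⁻¹ ^ n) d) = F d := by
    intro n
    induction n with
    | zero => intro d; rfl
    | succ k ih =>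
      intro d
      rw [pow_succ', Equiv.Perm.mul_apply, hinv, ih]
  rw [← hi]
  rcases i with n | n
  · rw [Int.ofNat_eq_natCast, zpow_natCast, key]
  · rw [zpow_negSucc, ← inv_pow, key']

private theorem const_walk {V : Type} {G : SimpleGraph V} {rot : Equiv.Perm G.Dart}
    (hrot : ∀ d d' : G.Dart, d.fst = d'.fst → rot.SameCycle d d')
    (F : G.Dart → ZMod 2) (h : ∀ d, F (rot d) = F d) (hs : ∀ d : G.Dart, F d.symm = F d)
    {v w : V} (p : G.Walk v w) :
    ∀ d d' : G.Dart, d.fst = v → d'.fst = w → F d = F d' := by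
  induction p with
  | nil =>
    intro d d' hd hd'
    exact const_cyc F h d d' (hrot d d' (hd.trans hd'.symm))
  | @cons a b c hab q ih =>
    intro d d' hd hd'
    let e : G.Dart := ⟨(a, b), hab⟩
    have h1 : F d = F e := const_cyc F h d e (hrot d e hd)
    have h2 : F e.symm = F d' := ih e.symm d' rfl hd'
    rw [h1, ← hs e, h2]

private theorem const_vert {V : Type} {G : SimpleGraph V} (g : V → ZMod 2)
    (h : ∀ d : G.Dart, g d.fst = g d.snd) {v w : V} (p : G.Walk v w) : g v = g w := by
  induction p with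
  | nil => rfl
  | @cons a b c hab q ih =>
    rw [← ih]
    exact h ⟨(a, b), hab⟩

open Classical in
theorem hEU (hL : StLIN) : StEU := by
  intro V _ G rot φ hP c hc
  obtain ⟨hconn, hfst, hrot, hφ, hcard⟩ := hP
  have : Fintype (Fc φ) := Fintype.ofFinite _
  let M : (Fc φ → ZMod 2) →ₗ[ZMod 2] (G.edgeSet → ZMod 2) :=
    { toFun := fun χ e => ∑ d ∈ Finset.univ.filter (fun d : G.Dart => ed d = e), χ (fc φ d)
      map_add' := fun x y => by
        funext e
        simp only [Pi.add_apply, Finset.sum_add_distrib]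
      map_smul' := fun a x => by
        funext e
        simp only [Pi.smul_apply, smul_eq_mul, Finset.mul_sum, RingHom.id_apply] }
  let N : (G.edgeSet → ZMod 2) →ₗ[ZMod 2] (V → ZMod 2) :=
    { toFun := fun x v => ∑ d ∈ Finset.univ.filter (fun d : G.Dart => d.fst = v), x (ed d)
      map_add' := fun x y => by
        funext e
        simp only [Pi.add_apply, Finset.sum_add_distrib]
      map_smul' := fun a x => by
        funext e
        simp only [Pi.smul_apply, smul_eq_mul, Finset.mul_sum, RingHom.id_apply] }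
  let N' : (V → ZMod 2) →ₗ[ZMod 2] (G.edgeSet → ZMod 2) :=
    { toFun := fun g e => ∑ d ∈ Finset.univ.filter (fun d : G.Dart => ed d = e), g d.fst
      map_add' := fun x y => by
        funext e
        simp only [Pi.add_apply, Finset.sum_add_distrib]
      map_smul' := fun a x => by
        funext e
        simp only [Pi.smul_apply, smul_eq_mul, Finset.mul_sum, RingHom.id_apply] }
  have hM : ∀ (χ : Fc φ → ZMod 2) (d : G.Dart),
      M χ (ed d) = χ (fc φ d) + χ (fc φ d.symm) := fun χ d =>
    sum_edge (fun d => χ (fc φ d)) d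
  have hN' : ∀ (g : V → ZMod 2) (d : G.Dart), N' g (ed d) = g d.fst + g d.snd := fun g d =>
    sum_edge (fun d => g d.fst) d
  have hsurj : ∀ e : G.edgeSet, ∃ d : G.Dart, ed d = e := by
    rintro ⟨e, he⟩
    induction e using Sym2.ind with
    | _ a b => exact ⟨⟨(a, b), he⟩, rfl⟩
  have hadj : ∀ (g : V → ZMod 2) (x : G.edgeSet → ZMod 2),
      ∑ k, g k * N x k = ∑ j, N' g j * x j := by
    intro g x
    have h1 : ∑ k, g k * N x k = ∑ d : G.Dart, g d.fst * x (ed d) :=
      sum_fib (fun d : G.Dart => d.fst) g (fun d => x (ed d))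
    have h2 : ∑ j, x j * N' g j = ∑ d : G.Dart, x (ed d) * g d.fst :=
      sum_fib (fun d : G.Dart => ed d) x (fun d => g d.fst)
    rw [h1, Finset.sum_congr rfl fun j _ => mul_comm (N' g j) (x j), h2]
    exact Finset.sum_congr rfl fun d _ => mul_comm _ _
  have hNM : ∀ x, N (M x) = 0 := by
    intro χ
    funext v
    have h1 : N (M χ) v = ∑ d ∈ Finset.univ.filter (fun d : G.Dart => d.fst = v), M χ (ed d) := rfl
    rw [h1, Finset.sum_congr rfl fun d _ => hM χ d, Finset.sum_add_distrib]
    have h2 : ∑ d ∈ Finset.univ.filter (fun d : G.Dart => d.fst = v), χ (fc φ d.symm) =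
        ∑ d ∈ Finset.univ.filter (fun d : G.Dart => d.fst = v), χ (fc φ d) := by
      refine Finset.sum_equiv rot (fun d => ?_) (fun d _ => ?_)
      · simp only [Finset.mem_filter, Finset.mem_univ, true_and, hfst d]
      · rw [fc_symm hφ]
    rw [h2]
    exact zz _
  have hfaces : ∀ f : Fc φ, ∃ d, fc φ d = f := fun f => Quotient.exists_rep f
  have hMk : ∀ x, M x = 0 → x = 0 ∨ x = fun _ => 1 := by
    intro χ hχ
    have hs : ∀ d : G.Dart, χ (fc φ d.symm) = χ (fc φ d) := by
      intro d
      have h1 : M χ (ed d) = 0 := by rw [hχ]; rfl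
      rw [hM] at h1
      have h2 := zz (χ (fc φ d))
      have h3 : χ (fc φ d) + χ (fc φ d.symm) = χ (fc φ d) + χ (fc φ d) := h1.trans h2.symm
      exact add_left_cancel h3
    have hr : ∀ d : G.Dart, χ (fc φ (rot d)) = χ (fc φ d) := by
      intro d
      rw [← fc_symm hφ, hs]
    have hall : ∀ f f' : Fc φ, χ f = χ f' := by
      intro f f'
      obtain ⟨d, rfl⟩ := hfaces f
      obtain ⟨d', rfl⟩ := hfaces f'
      obtain ⟨p⟩ := hconn.preconnected d.fst d'.fst
      exact const_walk hrot (fun d => χ (fc φ d)) hr hs p d d' rfl rfl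
    by_cases hne : Nonempty (Fc φ)
    · obtain ⟨f0⟩ := hne
      rcases z01 (χ f0) with h | h
      · left
        funext f
        rw [hall f f0, h]
        rfl
      · right
        funext f
        rw [hall f f0, h]
    · left
      funext f
      exact absurd ⟨f⟩ hne
  have hNk : ∀ g, N' g = 0 → g = 0 ∨ g = fun _ => 1 := by
    intro g hg
    have hs : ∀ d : G.Dart, g d.fst = g d.snd := by
      intro d
      have h1 : N' g (ed d) = 0 := by rw [hg]; rfl
      rw [hN'] at h1
      have h2 := zz (g d.fst)
      have h3 : g d.fst + g d.fst = g d.fst + g d.snd := h2.trans h1.symm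
      exact add_left_cancel h3
    obtain ⟨v0⟩ := hconn.nonempty
    have hall : ∀ v, g v = g v0 := by
      intro v
      obtain ⟨p⟩ := hconn.preconnected v v0
      exact const_vert g hs p
    rcases z01 (g v0) with h | h
    · left
      funext f
      rw [hall f, h]
      rfl
    · right
      funext f
      rw [hall f, h]
  have hcd : Fintype.card (Fc φ) + Fintype.card V = Fintype.card G.edgeSet + 2 := by
    rw [Nat.card_eq_fintype_card, Nat.card_eq_fintype_card] at hcard
    omega
  have hNc : N (fun e => c e.1) = 0 := by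
    funext v
    exact hc v
  obtain ⟨χ, hχ⟩ := hL (Fc φ) G.edgeSet V M N N' hadj hNM hMk hNk hcd _ hNc
  refine ⟨χ, fun d => ?_⟩
  rw [← hM, hχ]
  rfl

end Pool.Agent.Helper97.NF
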